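import Pool.Agent.Lib_helper1.PBD.Fin

/-!
MP_f1604d_co. For every `C`, at most `K (h+1) √N (log N)^2` of the numbers `n ≤ N` have a pairwise
balanced design on `n` points with all blocks of size greater than `√n - C` and with at most `h`
blocks whose size is different from two numbers `k₁`, `k₂`.
-/

set_option autoImplicit false

namespace Pool.Agent.Results.MP_f1604d_co.TwoBlockSizes

open Finset Pool.Agent.Lib_helper1.PBD

theorem result (C : ℝ) : ∃ K : ℝ, ∀ N h : ℕ, 2 ≤ N →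
    (Set.ncard {n : ℕ | 3 ≤ n ∧ n ≤ N ∧ ∃ (H : Finset (Finset (Fin n))) (k₁ k₂ : ℕ),
      H.IsPairwiseBalancedDesign ∧ (∀ e ∈ H, e.card < n ∧ Real.sqrt n - C < e.card) ∧
      (H.filter (fun e => e.card ≠ k₁ ∧ e.card ≠ k₂)).card ≤ h} : ℝ) ≤
    K * (h + 1) * Real.sqrt N * Real.log N ^ 2 := by
  classical
  set C0 : ℝ := max C 0 with hC0
  obtain ⟨P, n0, hst⟩ := struct C0 (le_max_right _ _)
  set n1 : ℕ := max n0 ((2 * P + 2) ^ 2) with hn1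
  refine ⟨(n1 : ℝ) / Real.log 2 ^ 2 + (2 * P + 1) ^ 5 * (3 * (2 + 2 * P)) *
      ((1 + Real.log (2 + 2 * P)) / Real.log 2 + 1) ^ 2, ?_⟩
  intro N h hN
  set I : Finset (ℤ × ℤ × ℤ × ℤ × ℤ) :=
    Icc (-(P : ℤ)) P ×ˢ Icc (-(P : ℤ)) P ×ˢ Icc (-(P : ℤ)) P ×ˢ Icc (-(P : ℤ)) P ×ˢ
      Icc (-((P * h : ℕ) : ℤ)) ((P * h : ℕ) : ℤ) with hI
  set T : ℤ × ℤ × ℤ × ℤ × ℤ → Finset ℕ := fun p => (Icc 1 N).filter (fun n : ℕ =>
    (2 * P + 2) ^ 2 ≤ n ∧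
      (2 * (Nat.sqrt n : ℤ) + p.1 + p.2.1 - 1) ∣ (n : ℤ) ^ 2 - n +
        (((Nat.sqrt n : ℤ) + p.1) * ((Nat.sqrt n : ℤ) + p.2.1) *
          (((Nat.sqrt n : ℤ) + p.2.2.1) ^ 2 + ((Nat.sqrt n : ℤ) + p.2.2.1) + 1 + p.2.2.2.1)
            - p.2.2.2.2)) with hT
  have hcov : {n : ℕ | 3 ≤ n ∧ n ≤ N ∧ ∃ (H : Finset (Finset (Fin n))) (k₁ k₂ : ℕ),
      H.IsPairwiseBalancedDesign ∧ (∀ e ∈ H, e.card < n ∧ Real.sqrt n - C < e.card) ∧
      (H.filter (fun e => e.card ≠ k₁ ∧ e.card ≠ k₂)).card ≤ h} ⊆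
      ((Finset.range n1 ∪ I.biUnion T : Finset ℕ) : Set ℕ) := by
    rintro n ⟨hn3, hnN, H, k1, k2, hD, hk, hh⟩
    rw [Finset.mem_coe, Finset.mem_union, Finset.mem_range]
    by_cases hn : n < n1
    · exact Or.inl hn
    right
    push Not at hn
    have hk' : ∀ e ∈ H, e.card < n ∧ Real.sqrt n - C0 < e.card := by
      intro e he
      refine ⟨(hk e he).1, lt_of_le_of_lt ?_ (hk e he).2⟩
      have : C ≤ C0 := le_max_left _ _
      linarith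
    obtain ⟨i1, i2, j, β, η, h1, h2, h3, h4, h5, h6⟩ :=
      hst n ((le_max_left _ _).trans hn) H hD hk' k1 k2 h hh
    rw [Finset.mem_biUnion]
    refine ⟨(i1, i2, j, β, η), ?_, ?_⟩
    · simp only [hI, Finset.mem_product, Finset.mem_Icc]
      refine ⟨abs_le.1 h1, abs_le.1 h2, abs_le.1 h3, abs_le.1 h4, ?_⟩
      push_cast
      exact abs_le.1 h5
    · simp only [hT, Finset.mem_filter, Finset.mem_Icc]
      exact ⟨⟨by omega, hnN⟩, (le_max_right _ _).trans hn, h6⟩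
  have hcard : (Set.ncard {n : ℕ | 3 ≤ n ∧ n ≤ N ∧ ∃ (H : Finset (Finset (Fin n))) (k₁ k₂ : ℕ),
      H.IsPairwiseBalancedDesign ∧ (∀ e ∈ H, e.card < n ∧ Real.sqrt n - C < e.card) ∧
      (H.filter (fun e => e.card ≠ k₁ ∧ e.card ≠ k₂)).card ≤ h}) ≤
      n1 + ((2 * P + 1) ^ 4 * (2 * (P * h) + 1)) *
        ∑ κ ∈ Icc 1 (2 * Nat.sqrt N + 2 * P), G κ := by
    refine (Set.ncard_le_ncard hcov (Finset.finite_toSet _)).trans ?_
    rw [Set.ncard_coe_finset]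
    refine (Finset.card_union_le _ _).trans ?_
    rw [Finset.card_range]
    refine Nat.add_le_add_left (Finset.card_biUnion_le.trans ?_) _
    have hTp : ∀ p ∈ I, (T p).card ≤ ∑ κ ∈ Icc 1 (2 * Nat.sqrt N + 2 * P), G κ := by
      rintro ⟨i1, i2, j, β, η⟩ hp
      simp only [hI, Finset.mem_product, Finset.mem_Icc] at hp
      exact Tcount P N i1 i2 j β η (abs_le.2 hp.1) (abs_le.2 hp.2.1)
    refine (Finset.sum_le_card_nsmul _ _ _ hTp).trans ?_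
    have hIc : I.card = (2 * P + 1) ^ 4 * (2 * (P * h) + 1) := by
      simp only [hI, Finset.card_product, Int.card_Icc]
      have e1 : ((P : ℤ) + 1 - -(P : ℤ)).toNat = 2 * P + 1 := by omega
      have e2 : (((P * h : ℕ) : ℤ) + 1 - -((P * h : ℕ) : ℤ)).toNat = 2 * (P * h) + 1 := by omega
      rw [e1, e2]; ring
    rw [hIc, smul_eq_mul]
  have hcard' : ((Set.ncard {n : ℕ | 3 ≤ n ∧ n ≤ N ∧ ∃ (H : Finset (Finset (Fin n))) (k₁ k₂ : ℕ),
      H.IsPairwiseBalancedDesign ∧ (∀ e ∈ H, e.card < n ∧ Real.sqrt n - C < e.card) ∧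
      (H.filter (fun e => e.card ≠ k₁ ∧ e.card ≠ k₂)).card ≤ h} : ℕ) : ℝ) ≤
      (n1 : ℝ) + ((2 * P + 1) ^ 4 * (2 * (P * h) + 1)) *
        ∑ κ ∈ Icc 1 (2 * Nat.sqrt N + 2 * P), (G κ : ℝ) := by
    exact_mod_cast hcard
  refine hcard'.trans (le_trans ?_ (real_bound P n1 N h hN))
  have hG := G_sum (2 * Nat.sqrt N + 2 * P)
  have : (0 : ℝ) ≤ ((2 * P + 1) ^ 4 * (2 * (P * h) + 1)) := by positivity
  linarith [mul_le_mul_of_nonneg_left hG this]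

end Pool.Agent.Results.MP_f1604d_co.TwoBlockSizes
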